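import Pool.Agent.W2helper19.SOS.Basic

/-!
# MP_ce7760_an, piece J3: the core (C0), (C1), (C2), (C3)
-/

open MvPolynomial

namespace Pool.Agent.W2helper19.SOS

open Pool.Agent.W2helper74.SOS

/-- a polynomial family which lies in a subspace infinitely often has its coefficients there -/
lemma coeff_mem_of_infinite {M : Type*} [AddCommGroup M] [Module ℂ M] (W : Submodule ℂ M)
    (d : ℕ) (c : ℕ → M)
    (h : {t : ℂ | ∑ k ∈ Finset.range (d + 1), t ^ k • c k ∈ W}.Infinite) :
    ∀ k ≤ d, c k ∈ W := by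
  intro k hk
  by_contra hck
  obtain ⟨φ, hφ, hW⟩ := Submodule.exists_le_ker_of_notMem hck
  set P : Polynomial ℂ := ∑ k ∈ Finset.range (d + 1), Polynomial.monomial k (φ (c k)) with hPdef
  have hP : P = 0 := by
    apply Polynomial.eq_zero_of_infinite_isRoot
    refine h.mono ?_
    intro t ht
    have h1 := hW ht
    rw [LinearMap.mem_ker, map_sum] at h1
    show P.eval t = 0
    rw [hPdef, Polynomial.eval_finsetSum, ← h1]
    refine Finset.sum_congr rfl fun k _ => ?_
    rw [Polynomial.eval_monomial, map_smul, smul_eq_mul, mul_comm]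
  have h2 : P.coeff k = φ (c k) := by
    rw [hPdef, Polynomial.finsetSum_coeff, Finset.sum_eq_single k]
    · rw [Polynomial.coeff_monomial, if_pos rfl]
    · intro b _ hb
      rw [Polynomial.coeff_monomial, if_neg hb]
    · intro h3
      exact absurd (Finset.mem_range.2 (by omega)) h3
  rw [hP, Polynomial.coeff_zero] at h2
  exact hφ h2.symm

/-- the dichotomy behind (B4) and (B5) -/
lemma key (hB4 : B4) (hB5 : B5) {j : ℕ} (hj : 1 ≤ j) (U : Submodule ℂ (Pol (j + 1)))
    [hf : Module.Finite ℂ U]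
    (hU : ∀ T : Matrix (Fin (j + 1)) (Fin j) ℂ, rk U T ≤ rk U (emb j (j + 1))) :
    Module.finrank ℂ (DD U) ≤ Module.finrank ℂ (EE (rs U (emb j (j + 1)))) ∨
      ∃ f : Pol j, f ≠ 0 ∧ VF f ≤ EE (rs U (emb j (j + 1))) := by
  by_cases h : ∃ p ∈ U, p ≠ 0 ∧ X (Fin.last j) ^ 2 ∣ p
  · right
    obtain ⟨f, hf0, hf1⟩ := hB5 j U hf hj hU h
    refine ⟨f, hf0, ?_⟩
    rintro p ⟨w, rfl⟩
    rw [mem_EE]
    intro i
    have h1 := hf1 (Pi.single i 1) w
    rw [lf_single, mul_assoc] at h1
    exact h1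
  · left
    push Not at h
    have hle : rs (DD U) (emb j (j + 1)) ≤ EE (rs U (emb j (j + 1))) := by
      rintro q hq
      obtain ⟨g, hg, rfl⟩ := mem_rs.1 hq
      rw [mem_EE]
      intro i
      have h1 := hB4 j U hf hU g hg (Pi.single i 1)
      rwa [lf_single] at h1
    have hker : DD U ⊓ LinearMap.ker (res (emb j (j + 1))).toLinearMap = ⊥ := by
      rw [Submodule.eq_bot_iff]
      intro g hg
      obtain ⟨hg1, hg2⟩ := Submodule.mem_inf.1 hg
      rw [LinearMap.mem_ker, AlgHom.toLinearMap_apply] at hg2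
      obtain ⟨g', rfl⟩ := res_emb_eq_zero hg2
      by_contra hne
      refine h _ (mem_DD.1 hg1) (mul_ne_zero (X_ne_zero _) hne) ⟨g', ?_⟩
      ring
    have h2 := finrank_ker_add (DD U) (emb j (j + 1))
    rw [hker, finrank_bot, zero_add] at h2
    haveI := EE_finite hj (rs U (emb j (j + 1)))
    rw [← h2]
    exact Submodule.finrank_mono hle

/-! ### the levels -/

/-- what we use about a common maximiser -/
lemma lev1 (hB1 : B1) {n j : ℕ} (V : Submodule ℂ (Pol n)) [hf : Module.Finite ℂ V]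
    (T : Matrix (Fin n) (Fin (j + 1)) ℂ) (h2 : rk V (T * emb j (j + 1)) = mx V j) :
    ∀ S : Matrix (Fin (j + 1)) (Fin j) ℂ, rk (rs V T) S ≤ rk (rs V T) (emb j (j + 1)) := by
  intro S
  rw [← rk_mul, ← rk_mul, h2]
  exact (hB1 n V hf).2.1 j (T * S)

lemma lev2 {n j : ℕ} (V : Submodule ℂ (Pol n)) [hf : Module.Finite ℂ V]
    (T : Matrix (Fin n) (Fin (j + 1)) ℂ) (h1 : rk V T = mx V (j + 1))
    (h2 : rk V (T * emb j (j + 1)) = mx V j) :
    Module.finrank ℂ (DD (rs V T)) + mx V j = mx V (j + 1) := by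
  have h := finrank_DD (rs V T)
  rw [← rk_mul, h2] at h
  rw [h]
  exact h1

lemma lev3 {n j : ℕ} (hj : 1 ≤ j) (V : Submodule ℂ (Pol n)) [hf : Module.Finite ℂ V]
    (T₀ : Matrix (Fin n) (Fin j) ℂ) (h2 : rk V T₀ = mx V j)
    (h3 : rk V (T₀ * emb (j - 1) j) = mx V (j - 1)) :
    Module.finrank ℂ (EE (rs V T₀)) + mx V (j - 1) ≤ mx V j := by
  obtain ⟨i, rfl⟩ : ∃ i, j = i + 1 := ⟨j - 1, by omega⟩
  rw [Nat.add_sub_cancel] at h3 ⊢
  have h4 := lev2 V T₀ h2 h3
  have h5 := finrank_EE_le (rs V T₀)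
  omega

/-- linear forms -/
noncomputable def LF (n : ℕ) : Submodule ℂ (Pol n) := LinearMap.range (lfL n)

instance (n : ℕ) : Module.Finite ℂ (LF n) := by unfold LF; infer_instance

lemma rs_LF {n j : ℕ} (T : Matrix (Fin n) (Fin j) ℂ) :
    rs (LF n) T = (LinearMap.range T.vecMulLinear).map (lfL j) := by
  apply le_antisymm
  · intro q hq
    obtain ⟨p, ⟨w, rfl⟩, rfl⟩ := mem_rs.1 hq
    exact Submodule.mem_map.2 ⟨_, ⟨w, rfl⟩, by rw [lfL_apply, lfL_apply, res_lf]; rfl⟩
  · intro q hq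
    obtain ⟨_, ⟨w, rfl⟩, rfl⟩ := Submodule.mem_map.1 hq
    exact mem_rs.2 ⟨lf w, ⟨w, rfl⟩, by rw [res_lf]; rfl⟩

lemma rk_LF {n j : ℕ} (T : Matrix (Fin n) (Fin j) ℂ) : rk (LF n) T = T.rank := by
  unfold rk
  rw [rs_LF, ← Matrix.rank_transpose, Matrix.rank, Matrix.mulVecLin_transpose]
  exact (LinearEquiv.finrank_eq (Submodule.equivMapOfInjective (lfL j) lf_injective _)).symm

lemma rank_emb {j n : ℕ} (h : j ≤ n) : (emb j n).rank = j := by
  apply le_antisymm
  · simpa using Matrix.rank_le_width (emb j n)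
  · have h1 : (emb j n).transpose * emb j n = 1 := by
      ext a b
      rw [Matrix.mul_apply, Matrix.one_apply, Finset.sum_eq_single (Fin.castLE h b)]
      · simp only [Matrix.transpose_apply, emb, Fin.val_castLE, mul_one, Fin.ext_iff, if_true]
        simp only [eq_comm]
      · intro c _ hc
        have : ¬ ((c : ℕ) = (b : ℕ)) := fun h' => hc (Fin.ext h')
        simp [emb, this]
      · simp
    have h2 := Matrix.rank_mul_le_right (emb j n).transpose (emb j n)
    rw [h1, Matrix.rank_one, Fintype.card_fin] at h2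
    exact h2

lemma mx_LF (hB1 : B1) {j n : ℕ} (h : j ≤ n) : mx (LF n) j = j := by
  have hb := hB1 n (LF n) inferInstance
  apply le_antisymm
  · obtain ⟨T, hT⟩ := hb.1 j
    rw [← hT, rk_LF]
    simpa using Matrix.rank_le_width T
  · have := hb.2.1 j (emb j n)
    rwa [rk_LF, rank_emb h] at this

/-- the common maximiser used in (C2) and (C3) -/
lemma common (hB1 : B1) (hB3 : B3) {n : ℕ} (d : Alg n) {j : ℕ} (hj : 2 ≤ j) (hjn : j + 1 ≤ n) :
    ∃ T : Matrix (Fin n) (Fin (j + 1)) ℂ,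
      rk d.V T = mx d.V (j + 1) ∧ rk d.V (T * emb j (j + 1)) = mx d.V j ∧
      rk d.V (T * emb (j - 1) (j + 1)) = mx d.V (j - 1) ∧
      rk d.E T = mx d.E (j + 1) ∧ rk d.E (T * emb j (j + 1)) = mx d.E j ∧
      rk d.E (T * emb 2 (j + 1)) = mx d.E 2 ∧ (T * emb j (j + 1)).rank = j := by
  haveI := d.finV
  haveI := d.finE
  obtain ⟨T, hT⟩ := hB3 n (j + 1) 7 ![d.V, d.V, d.V, d.E, d.E, d.E, LF n]
    ![j + 1, j, j - 1, j + 1, j, 2, j]
    (by
      intro i
      fin_cases i
      · exact d.finV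
      · exact d.finV
      · exact d.finV
      · exact d.finE
      · exact d.finE
      · exact d.finE
      · exact (inferInstance : Module.Finite ℂ (LF n)))
    (by
      intro i
      fin_cases i
      · exact le_refl (j + 1)
      · exact Nat.le_succ j
      · exact (Nat.sub_le j 1).trans (Nat.le_succ j)
      · exact le_refl (j + 1)
      · exact Nat.le_succ j
      · exact hj.trans (Nat.le_succ j)
      · exact Nat.le_succ j)
  have t0 : rk d.V (T * emb (j + 1) (j + 1)) = mx d.V (j + 1) := hT 0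
  have t1 : rk d.V (T * emb j (j + 1)) = mx d.V j := hT 1
  have t2 : rk d.V (T * emb (j - 1) (j + 1)) = mx d.V (j - 1) := hT 2
  have t3 : rk d.E (T * emb (j + 1) (j + 1)) = mx d.E (j + 1) := hT 3
  have t4 : rk d.E (T * emb j (j + 1)) = mx d.E j := hT 4
  have t5 : rk d.E (T * emb 2 (j + 1)) = mx d.E 2 := hT 5
  have t6 : rk (LF n) (T * emb j (j + 1)) = mx (LF n) j := hT 6
  rw [emb_self, Matrix.mul_one] at t0 t3
  rw [rk_LF, mx_LF hB1 (by omega)] at t6
  exact ⟨T, t0, t1, t2, t3, t4, t5, t6⟩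

theorem c1 (hB1 : B1) (hB3 : B3) (hB4 : B4) (hB5 : B5) : C1 := by
  intro n V hV j hj hjn
  obtain ⟨T, hT⟩ := hB3 n (j + 1) 3 (fun _ => V) ![j + 1, j, j - 1] (fun _ => hV)
    (by
      intro i
      fin_cases i
      · exact le_refl (j + 1)
      · exact Nat.le_succ j
      · exact (Nat.sub_le j 1).trans (Nat.le_succ j))
  have t0 : rk V (T * emb (j + 1) (j + 1)) = mx V (j + 1) := hT 0
  have t1 : rk V (T * emb j (j + 1)) = mx V j := hT 1
  have t2 : rk V (T * emb (j - 1) (j + 1)) = mx V (j - 1) := hT 2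
  rw [emb_self, Matrix.mul_one] at t0
  have t2' : rk V (T * emb j (j + 1) * emb (j - 1) j) = mx V (j - 1) := by
    rw [Matrix.mul_assoc, emb_mul (Nat.sub_le j 1)]
    exact t2
  have h2 := lev2 V T t0 t1
  have h3 := lev3 hj V (T * emb j (j + 1)) t1 t2'
  rcases key hB4 hB5 hj (rs V T) (lev1 hB1 V T t1) with h | ⟨f, hf0, hf⟩
  · rw [← rs_mul] at h
    have := min_le_left (mx V (j + 1) - mx V j) j
    omega
  · rw [← rs_mul] at hf
    haveI := EE_finite hj (rs V (T * emb j (j + 1)))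
    have h4 := Submodule.finrank_mono hf
    rw [finrank_VF hf0] at h4
    have := min_le_right (mx V (j + 1) - mx V j) j
    omega

theorem c0 (hB2 : B2) : C0 := by
  intro n d j hj T₀ hrank h1 h2 h3
  obtain ⟨i, rfl⟩ : ∃ i, j = i + 1 := ⟨j - 1, by omega⟩
  rw [Nat.add_sub_cancel] at h2 h3
  haveI := d.finV
  set U₀ := rs d.V T₀ with hU₀
  haveI : Module.Finite ℂ (EE U₀) := EE_finite hj U₀
  suffices h : ∀ w, res T₀ (d.a w) ∈ EE U₀ by
    intro q hq
    obtain ⟨p, hp, rfl⟩ := mem_rs.1 hq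
    rw [← d.spanE] at hp
    have h4 : Submodule.span ℂ (Set.range d.a) ≤ (EE U₀).comap (res T₀).toLinearMap := by
      rw [Submodule.span_le]
      rintro _ ⟨w, rfl⟩
      exact h w
    exact h4 hp
  intro w
  have htop : LinearMap.range T₀.vecMulLinear = ⊤ := by
    apply Submodule.eq_top_of_finrank_eq
    rw [← Matrix.mulVecLin_transpose]
    have := Matrix.rank_transpose T₀
    rw [hrank, Matrix.rank] at this
    rw [this, Module.finrank_fin_fun]
  obtain ⟨u, hu⟩ : ∃ u : Fin n → ℂ, Matrix.vecMul u T₀ = Pi.single (Fin.last i) 1 := by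
    have : (Pi.single (Fin.last i) 1 : Fin (i + 1) → ℂ) ∈ LinearMap.range T₀.vecMulLinear := by
      rw [htop]; trivial
    exact this
  set b := Matrix.vecMul w T₀ with hb
  let S : Matrix (Fin (i + 1)) (Fin i) (Polynomial ℂ) := fun r c =>
    Fin.lastCases (motive := fun _ => Polynomial ℂ)
      (-(Polynomial.X * Polynomial.C (b c.castSucc)))
      (fun r' => if r' = c then Polynomial.X * Polynomial.C (b (Fin.last i)) + 1 else 0) r
  have hS1 : ∀ (t : ℂ) (c : Fin i), S.map (Polynomial.eval t) (Fin.last i) c =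
      -(t * b c.castSucc) := by
    intro t c
    show Polynomial.eval t (S (Fin.last i) c) = _
    simp only [S, Fin.lastCases_last]
    rw [Polynomial.eval_neg, Polynomial.eval_mul, Polynomial.eval_X, Polynomial.eval_C]
  have hS2 : ∀ (t : ℂ) (r c : Fin i), S.map (Polynomial.eval t) r.castSucc c =
      if r = c then t * b (Fin.last i) + 1 else 0 := by
    intro t r c
    show Polynomial.eval t (S r.castSucc c) = _
    simp only [S, Fin.lastCases_castSucc]
    split_ifs
    · rw [Polynomial.eval_add, Polynomial.eval_mul, Polynomial.eval_X, Polynomial.eval_C,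
        Polynomial.eval_one]
    · rw [Polynomial.eval_zero]
  have hS0 : S.map (Polynomial.eval 0) = emb i (i + 1) := by
    ext r c
    refine Fin.lastCases ?_ (fun r' => ?_) r
    · rw [hS1, emb_last]; simp
    · rw [hS2, emb_castSucc]
      simp only [zero_mul, zero_add, Pi.single_apply]
      congr 1
      exact propext eq_comm
  have hker : ∀ t : ℂ, Matrix.vecMul (t • b + Pi.single (Fin.last i) 1)
      (S.map (Polynomial.eval t)) = 0 := by
    intro t
    funext c
    simp only [Matrix.vecMul, dotProduct, Pi.add_apply, Pi.smul_apply, smul_eq_mul, Pi.zero_apply]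
    rw [Fin.sum_univ_castSucc, Finset.sum_eq_single c]
    · rw [hS1, hS2, if_pos rfl, Pi.single_eq_same, Pi.single_eq_of_ne (Fin.castSucc_ne_last c)]
      ring
    · intro r _ hr
      rw [hS2, if_neg hr, mul_zero]
    · simp
  have hfin := hB2 (i + 1) i U₀ inferInstance S 0
  have hfin2 : {t : ℂ | t * b (Fin.last i) + 1 = 0}.Finite := by
    refine (Set.finite_singleton (-(b (Fin.last i))⁻¹)).subset ?_
    intro t ht
    have ht' : t * b (Fin.last i) + 1 = 0 := ht
    have hb0 : b (Fin.last i) ≠ 0 := by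
      intro h0
      rw [h0] at ht'
      simp at ht'
    rw [Set.mem_singleton_iff]
    field_simp
    linear_combination ht'
  have hgood : ∀ t : ℂ, t ∉ {t : ℂ | rk U₀ (S.map (Polynomial.eval t)) <
      rk U₀ (S.map (Polynomial.eval 0))} → t ∉ {t : ℂ | t * b (Fin.last i) + 1 = 0} →
      res T₀ (d.a (t • w + u)) ∈ EE U₀ := by
    intro t ht1 ht2
    have ht1' : rk U₀ (S.map (Polynomial.eval 0)) ≤ rk U₀ (S.map (Polynomial.eval t)) :=
      not_lt.1 ht1
    have ht2' : ¬ (t * b (Fin.last i) + 1 = 0) := ht2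
    set ℓ := lf (t • b + Pi.single (Fin.last i) 1) with hℓ
    have hℓ1 : ℓ = res T₀ (lf (t • w + u)) := by
      rw [res_lf, Matrix.add_vecMul, Matrix.smul_vecMul, hu, hℓ]
    have hℓ0 : ℓ ≠ 0 := by
      apply lf_ne_zero
      intro h0
      apply ht2'
      have := congrFun h0 (Fin.last i)
      simpa using this
    have hℓ2 : res (S.map (Polynomial.eval t)) ℓ = 0 := by
      rw [hℓ, res_lf, hker t, lf_zero]
    have hle : (EE U₀).map (LinearMap.mulLeft ℂ ℓ) ≤
        U₀ ⊓ LinearMap.ker (res (S.map (Polynomial.eval t))).toLinearMap := by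
      intro p hp
      obtain ⟨f, hf, rfl⟩ := Submodule.mem_map.1 hp
      refine Submodule.mem_inf.2 ⟨?_, LinearMap.mem_ker.2 ?_⟩
      · rw [LinearMap.mulLeft_apply]
        exact lf_mul_mem hf _
      · rw [LinearMap.mulLeft_apply, AlgHom.toLinearMap_apply, map_mul, hℓ2, zero_mul]
    have hd := finrank_ker_add U₀ (S.map (Polynomial.eval t))
    have hd1 : Module.finrank ℂ U₀ = mx d.V (i + 1) := h1
    have hd2 : rk U₀ (S.map (Polynomial.eval 0)) = mx d.V i := by
      rw [hS0, hU₀, ← rk_mul]; exact h2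
    haveI : Module.Finite ℂ
        ↥(U₀ ⊓ LinearMap.ker (res (S.map (Polynomial.eval t))).toLinearMap) :=
      Submodule.finiteDimensional_inf_left _ _
    have heq : (EE U₀).map (LinearMap.mulLeft ℂ ℓ) =
        U₀ ⊓ LinearMap.ker (res (S.map (Polynomial.eval t))).toLinearMap := by
      apply Submodule.eq_of_le_of_finrank_le hle
      rw [finrank_map_mulLeft _ hℓ0]
      omega
    have hmem : ℓ * res T₀ (d.a (t • w + u)) ∈
        U₀ ⊓ LinearMap.ker (res (S.map (Polynomial.eval t))).toLinearMap := by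
      refine Submodule.mem_inf.2 ⟨?_, LinearMap.mem_ker.2 ?_⟩
      · rw [hℓ1, ← map_mul]
        apply res_mem
        rw [← d.spanV]
        exact Submodule.subset_span ⟨t • w + u, rfl⟩
      · rw [AlgHom.toLinearMap_apply, map_mul, hℓ2, zero_mul]
    rw [← heq] at hmem
    obtain ⟨f, hf, hf'⟩ := Submodule.mem_map.1 hmem
    rw [LinearMap.mulLeft_apply] at hf'
    rw [← mul_left_cancel₀ hℓ0 hf']
    exact hf
  obtain ⟨D, c, hc, hsum⟩ := d.hom w u
  have hinf : {t : ℂ | ∑ k ∈ Finset.range (D + 1), t ^ k • res T₀ (c k) ∈ EE U₀}.Infinite := by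
    have hcompl := (hfin.union hfin2).infinite_compl
    refine hcompl.mono ?_
    intro t ht
    rw [Set.mem_compl_iff, Set.mem_union, not_or] at ht
    have h5 := hgood t ht.1 ht.2
    rw [hsum t, map_sum] at h5
    show _ ∈ EE U₀
    convert h5 using 2
    rw [map_smul]
  have := coeff_mem_of_infinite (EE U₀) D (fun k => res T₀ (c k)) hinf D le_rfl
  rw [← hc]
  exact this

/-- the end of (C2) and (C3) -/
lemma finish {n : ℕ} {j : ℕ} (hj : 2 ≤ j) (E : Submodule ℂ (Pol n))
    (T : Matrix (Fin n) (Fin (j + 1)) ℂ)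
    (hE : rk E (T * emb 2 (j + 1)) = mx E 2) (f : Pol j)
    (h : rs E (T * emb j (j + 1)) ≤ VF f) : mx E 2 ≤ 2 := by
  rw [← hE, ← emb_mul hj, ← Matrix.mul_assoc]
  unfold rk
  rw [rs_mul]
  have h1 : rs (rs E (T * emb j (j + 1))) (emb 2 j) ≤ VF (res (emb 2 j) f) :=
    (rs_mono h _).trans (rs_VF_le f _)
  exact (Submodule.finrank_mono h1).trans (finrank_VF_le _)

theorem c3 (hB1 : B1) (hB2 : B2) (hB3 : B3) (hB4 : B4) (hB5 : B5) : C3 := by
  intro n d j hj hjn hk1 hk2
  haveI := d.finV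
  haveI := d.finE
  obtain ⟨T, t0, t1, t2, t3, t4, t5, t6⟩ := common hB1 hB3 d hj hjn
  have t2' : rk d.V (T * emb j (j + 1) * emb (j - 1) j) = mx d.V (j - 1) := by
    rw [Matrix.mul_assoc, emb_mul (Nat.sub_le j 1)]
    exact t2
  have hj1 : 1 ≤ j := by omega
  have h2 := lev2 d.V T t0 t1
  have h3 := lev3 hj1 d.V (T * emb j (j + 1)) t1 t2'
  have hmono := (hB1 n d.V d.finV).2.2.2.2 (j - 1)
  rw [Nat.sub_add_cancel hj1] at hmono
  haveI := EE_finite hj1 (rs d.V (T * emb j (j + 1)))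
  rcases key hB4 hB5 hj1 (rs d.V T) (lev1 hB1 d.V T t1) with h | ⟨f, hf0, hf⟩
  · rw [← rs_mul] at h
    omega
  · rw [← rs_mul] at hf
    have h4 := Submodule.finrank_mono hf
    rw [finrank_VF hf0] at h4
    have h5 : VF f = EE (rs d.V (T * emb j (j + 1))) := by
      apply Submodule.eq_of_le_of_finrank_le hf
      rw [finrank_VF hf0]
      omega
    have h6 := c0 hB2 n d j hj1 (T * emb j (j + 1)) t6 t1 t2' (by omega)
    rw [← h5] at h6
    exact finish hj d.E T t5 f h6

theorem c2 (hB1 : B1) (hB2 : B2) (hB3 : B3) (hB4 : B4) (hB5 : B5) (hC2' : C2') : C2 := by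
  intro n d j c hj hjn hcj hk1 hk2
  haveI := d.finV
  haveI := d.finE
  obtain ⟨T, t0, t1, t2, t3, t4, t5, t6⟩ := common hB1 hB3 d hj hjn
  have t2' : rk d.V (T * emb j (j + 1) * emb (j - 1) j) = mx d.V (j - 1) := by
    rw [Matrix.mul_assoc, emb_mul (Nat.sub_le j 1)]
    exact t2
  have hj1 : 1 ≤ j := by omega
  have h2 := lev2 d.V T t0 t1
  have h3 := lev3 hj1 d.V (T * emb j (j + 1)) t1 t2'
  have hmono := (hB1 n d.V d.finV).2.2.2.2 (j - 1)
  rw [Nat.sub_add_cancel hj1] at hmono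
  haveI := EE_finite hj1 (rs d.V (T * emb j (j + 1)))
  have hEE : c ≤ Module.finrank ℂ (EE (rs d.V (T * emb j (j + 1)))) := by
    rcases key hB4 hB5 hj1 (rs d.V T) (lev1 hB1 d.V T t1) with h | ⟨f, hf0, hf⟩
    · rw [← rs_mul] at h
      omega
    · rw [← rs_mul] at hf
      have h4 := Submodule.finrank_mono hf
      rw [finrank_VF hf0] at h4
      omega
  have h6 := c0 hB2 n d j hj1 (T * emb j (j + 1)) t6 t1 t2' (by omega)
  have h7 : mx d.E j ≤ c := by
    rw [← t4]
    have := Submodule.finrank_mono h6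
    unfold rk
    omega
  have h8 := hC2' n d.E d.finE j
  by_cases hdim : Module.finrank ℂ d.E ≤ c
  · exact Or.inl hdim
  right
  have hcj' : c = j := by
    rcases Nat.lt_or_ge c j with hlt | hge
    · exfalso
      have : c < min (Module.finrank ℂ d.E) j := lt_min (by omega) hlt
      omega
    · omega
  subst hcj'
  have h9 := hC2' n d.E d.finE (c + 1)
  rw [min_eq_right (by omega)] at h9
  have hDD := lev2 d.E T t3 t4
  have hlev := lev1 hB1 d.E T t4
  -- a common factor
  obtain ⟨f, hf0, hf⟩ : ∃ f : Pol c, f ≠ 0 ∧ VF f ≤ rs d.E (T * emb c (c + 1)) := by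
    by_cases hsq : ∃ p ∈ rs d.E T, p ≠ 0 ∧ X (Fin.last c) ^ 2 ∣ p
    · obtain ⟨f, hf0, hf1⟩ := hB5 c (rs d.E T) inferInstance hj1 hlev hsq
      rw [← rs_mul] at hf1
      refine ⟨X ⟨0, by omega⟩ * f, mul_ne_zero (X_ne_zero _) hf0, ?_⟩
      rintro p ⟨w, rfl⟩
      have := hf1 w (Pi.single ⟨0, by omega⟩ 1)
      rw [lf_single, mul_assoc] at this
      exact this
    · push Not at hsq
      have hne : DD (rs d.E T) ≠ ⊥ := by
        intro hbot
        rw [hbot, finrank_bot] at hDD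
        omega
      obtain ⟨g, hg, hg0⟩ := Submodule.exists_mem_ne_zero_of_ne_bot hne
      refine ⟨res (emb c (c + 1)) g, ?_, ?_⟩
      · intro h0
        obtain ⟨g', rfl⟩ := res_emb_eq_zero h0
        refine hsq _ (mem_DD.1 hg) (mul_ne_zero (X_ne_zero _) hg0) ⟨g', ?_⟩
        ring
      · rintro p ⟨w, rfl⟩
        have := hB4 c (rs d.E T) inferInstance hlev g hg w
        rw [← rs_mul] at this
        exact this
  have h10 : VF f = rs d.E (T * emb c (c + 1)) := by
    apply Submodule.eq_of_le_of_finrank_le hf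
    rw [finrank_VF hf0]
    show rk d.E (T * emb c (c + 1)) ≤ c
    rw [t4]
    exact h7
  exact finish hj d.E T t5 f h10.ge

end Pool.Agent.W2helper19.SOS
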