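import Pool.Agent.W2helper74.SOS.Stm

/-!
# MP_ce7760_an, piece J3: basic facts on restrictions
-/

open MvPolynomial

namespace Pool.Agent.W2helper19.SOS

open Pool.Agent.W2helper74.SOS

/-- `lf` as a linear map -/
noncomputable def lfL (n : ℕ) : (Fin n → ℂ) →ₗ[ℂ] Pol n where
  toFun := lf
  map_add' a b := by
    simp only [lf, Pi.add_apply, map_add, add_mul, Finset.sum_add_distrib]
  map_smul' c a := by
    simp only [lf, Pi.smul_apply, smul_eq_mul, map_mul, RingHom.id_apply, Finset.smul_sum,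
      MvPolynomial.smul_eq_C_mul, mul_assoc]

@[simp] lemma lfL_apply {n : ℕ} (w : Fin n → ℂ) : lfL n w = lf w := rfl

lemma lf_single {n : ℕ} (i : Fin n) : lf (Pi.single i (1 : ℂ)) = X i := by
  unfold lf
  rw [Finset.sum_eq_single i]
  · simp
  · intro b _ hb
    simp [Pi.single_eq_of_ne hb]
  · simp

lemma lf_add {n : ℕ} (a b : Fin n → ℂ) : lf (a + b) = lf a + lf b := (lfL n).map_add a b

lemma lf_smul {n : ℕ} (c : ℂ) (a : Fin n → ℂ) : lf (c • a) = c • lf a := (lfL n).map_smul c a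

lemma lf_zero {n : ℕ} : lf (0 : Fin n → ℂ) = 0 := (lfL n).map_zero

lemma coeff_lf {n : ℕ} (w : Fin n → ℂ) (i : Fin n) :
    coeff (Finsupp.single i 1) (lf w) = w i := by
  unfold lf
  rw [coeff_sum, Finset.sum_eq_single i]
  · rw [coeff_C_mul, coeff_X, if_pos rfl, mul_one]
  · intro b _ hb
    rw [coeff_C_mul, coeff_X, if_neg, mul_zero]
    intro h
    exact hb (Finsupp.single_left_injective one_ne_zero h)
  · simp

lemma lf_injective {n : ℕ} : Function.Injective (lf (n := n)) := by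
  intro a b h
  funext i
  rw [← coeff_lf a i, ← coeff_lf b i, h]

lemma lf_ne_zero {n : ℕ} {w : Fin n → ℂ} (h : w ≠ 0) : lf w ≠ 0 := by
  intro h'
  exact h (lf_injective (h'.trans lf_zero.symm))

lemma res_X {n j : ℕ} (T : Matrix (Fin n) (Fin j) ℂ) (k : Fin n) : res T (X k) = lf (T k) := by
  simp [res]

lemma res_lf {n j : ℕ} (T : Matrix (Fin n) (Fin j) ℂ) (w : Fin n → ℂ) :
    res T (lf w) = lf (Matrix.vecMul w T) := by
  have h1 : Matrix.vecMul w T = ∑ k, w k • T k := by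
    funext i
    simp [Matrix.vecMul, dotProduct, Finset.sum_apply]
  have h2 : lf (∑ k, w k • T k) = ∑ k, w k • lf (T k) := by
    rw [← lfL_apply, map_sum]
    exact Finset.sum_congr rfl fun k _ => by rw [map_smul, lfL_apply]
  rw [h1, h2]
  unfold lf
  rw [map_sum]
  refine Finset.sum_congr rfl fun k _ => ?_
  rw [map_mul, res_X, ← MvPolynomial.algebraMap_eq, AlgHom.commutes, Algebra.smul_def]
  rfl

lemma res_mul {n j i : ℕ} (T : Matrix (Fin n) (Fin j) ℂ) (S : Matrix (Fin j) (Fin i) ℂ) :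
    res (T * S) = (res S).comp (res T) := by
  apply MvPolynomial.algHom_ext
  intro k
  rw [res_X, AlgHom.comp_apply, res_X, res_lf]
  congr 1

lemma rs_mul {n j i : ℕ} (V : Submodule ℂ (Pol n)) (T : Matrix (Fin n) (Fin j) ℂ)
    (S : Matrix (Fin j) (Fin i) ℂ) : rs V (T * S) = rs (rs V T) S := by
  unfold rs
  rw [res_mul, ← Submodule.map_comp]
  rfl

lemma rk_mul {n j i : ℕ} (V : Submodule ℂ (Pol n)) (T : Matrix (Fin n) (Fin j) ℂ)
    (S : Matrix (Fin j) (Fin i) ℂ) : rk V (T * S) = rk (rs V T) S := by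
  unfold rk
  rw [rs_mul]

lemma emb_self (N : ℕ) : emb N N = 1 := by
  ext a b
  unfold emb
  rw [Matrix.one_apply]
  simp only [Fin.ext_iff]

lemma emb_mul {i j N : ℕ} (h : i ≤ j) : emb j N * emb i j = emb i N := by
  ext a b
  rw [Matrix.mul_apply, Finset.sum_eq_single (Fin.castLE h b)]
  · simp [emb]
  · intro c _ hc
    have : ¬ ((c : ℕ) = (b : ℕ)) := fun h' => hc (Fin.ext h')
    simp [emb, this]
  · simp

lemma mem_rs {n j : ℕ} {V : Submodule ℂ (Pol n)} {T : Matrix (Fin n) (Fin j) ℂ} {q : Pol j} :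
    q ∈ rs V T ↔ ∃ p ∈ V, res T p = q := Iff.rfl

lemma res_mem {n j : ℕ} {V : Submodule ℂ (Pol n)} {T : Matrix (Fin n) (Fin j) ℂ} {p : Pol n}
    (hp : p ∈ V) : res T p ∈ rs V T := ⟨p, hp, rfl⟩

instance rs_finite {n j : ℕ} (V : Submodule ℂ (Pol n)) [Module.Finite ℂ V]
    (T : Matrix (Fin n) (Fin j) ℂ) : Module.Finite ℂ (rs V T) := by
  unfold rs; infer_instance

lemma emb_last (j : ℕ) : emb j (j + 1) (Fin.last j) = 0 := by
  funext b
  have := b.2
  simp only [emb, Fin.val_last, Pi.zero_apply, ite_eq_right_iff, one_ne_zero, imp_false]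
  omega

lemma emb_castSucc (j : ℕ) (i : Fin j) : emb j (j + 1) i.castSucc = Pi.single i 1 := by
  funext b
  simp only [emb, Fin.val_castSucc, Pi.single_apply, Fin.ext_iff]
  congr 1
  exact propext eq_comm

lemma res_emb_last (j : ℕ) : res (emb j (j + 1)) (X (Fin.last j)) = 0 := by
  rw [res_X, emb_last, lf_zero]

lemma res_emb_castSucc (j : ℕ) (i : Fin j) : res (emb j (j + 1)) (X i.castSucc) = X i := by
  rw [res_X, emb_castSucc, lf_single]

/-- the kernel of the restriction to `h` -/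
lemma res_emb_eq_zero {j : ℕ} {p : Pol (j + 1)} (h : res (emb j (j + 1)) p = 0) :
    X (Fin.last j) ∣ p := by
  set I : Ideal (Pol (j + 1)) := Ideal.span {X (Fin.last j)}
  have key : Ideal.Quotient.mkₐ ℂ I =
      ((Ideal.Quotient.mkₐ ℂ I).comp (rename Fin.castSucc)).comp (res (emb j (j + 1))) := by
    apply MvPolynomial.algHom_ext
    intro k
    refine Fin.lastCases ?_ (fun i => ?_) k
    · rw [AlgHom.comp_apply, res_emb_last, map_zero, Ideal.Quotient.mkₐ_eq_mk,
        Ideal.Quotient.eq_zero_iff_mem]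
      exact Ideal.subset_span rfl
    · rw [AlgHom.comp_apply, res_emb_castSucc, AlgHom.comp_apply, rename_X]
  have h1 := congrArg (fun f => f p) key
  simp only [AlgHom.comp_apply, h, map_zero] at h1
  rw [Ideal.Quotient.mkₐ_eq_mk, Ideal.Quotient.eq_zero_iff_mem] at h1
  exact Ideal.mem_span_singleton.1 h1

/-- `{g : z_last g ∈ U}` -/
noncomputable def DD {j : ℕ} (U : Submodule ℂ (Pol (j + 1))) : Submodule ℂ (Pol (j + 1)) :=
  U.comap (LinearMap.mulLeft ℂ (X (Fin.last j)))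

lemma mem_DD {j : ℕ} {U : Submodule ℂ (Pol (j + 1))} {g : Pol (j + 1)} :
    g ∈ DD U ↔ X (Fin.last j) * g ∈ U := Iff.rfl

lemma X_mul_inj {n : ℕ} (i : Fin n) :
    Function.Injective (LinearMap.mulLeft ℂ (X i : Pol n)) := by
  intro a b h
  exact mul_left_cancel₀ (X_ne_zero i) h

/-- multiplication by a fixed polynomial does not change the dimension -/
lemma finrank_map_mulLeft {n : ℕ} (W : Submodule ℂ (Pol n)) {g : Pol n} (hg : g ≠ 0) :
    Module.finrank ℂ (W.map (LinearMap.mulLeft ℂ g)) = Module.finrank ℂ W := by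
  have hinj : Function.Injective (LinearMap.mulLeft ℂ g) := fun a b h => mul_left_cancel₀ hg h
  exact (LinearEquiv.finrank_eq (Submodule.equivMapOfInjective _ hinj W)).symm

lemma map_DD {j : ℕ} (U : Submodule ℂ (Pol (j + 1))) :
    (DD U).map (LinearMap.mulLeft ℂ (X (Fin.last j))) =
      U ⊓ LinearMap.ker (res (emb j (j + 1))).toLinearMap := by
  apply le_antisymm
  · rintro p hp
    obtain ⟨g, hg, rfl⟩ := Submodule.mem_map.1 hp
    refine Submodule.mem_inf.2 ⟨hg, LinearMap.mem_ker.2 ?_⟩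
    rw [LinearMap.mulLeft_apply, AlgHom.toLinearMap_apply, map_mul, res_emb_last, zero_mul]
  · intro p hp
    obtain ⟨hp, h0⟩ := Submodule.mem_inf.1 hp
    rw [LinearMap.mem_ker, AlgHom.toLinearMap_apply] at h0
    obtain ⟨g, rfl⟩ := res_emb_eq_zero h0
    exact Submodule.mem_map.2 ⟨g, hp, rfl⟩

instance DD_finite {j : ℕ} (U : Submodule ℂ (Pol (j + 1))) [Module.Finite ℂ U] :
    Module.Finite ℂ (DD U) := by
  have h1 : Module.Finite ℂ ((DD U).map (LinearMap.mulLeft ℂ (X (Fin.last j)))) := by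
    rw [map_DD]
    exact Submodule.finiteDimensional_inf_left _ _
  exact Module.Finite.equiv (Submodule.equivMapOfInjective _ (X_mul_inj (Fin.last j)) (DD U)).symm

/-- rank-nullity for a restriction -/
lemma finrank_ker_add {n j : ℕ} (U : Submodule ℂ (Pol n)) [Module.Finite ℂ U]
    (T : Matrix (Fin n) (Fin j) ℂ) :
    Module.finrank ℂ ↥(U ⊓ LinearMap.ker (res T).toLinearMap) + rk U T =
      Module.finrank ℂ U := by
  have h := LinearMap.finrank_range_add_finrank_ker ((res T).toLinearMap.domRestrict U)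
  have hr : LinearMap.range ((res T).toLinearMap.domRestrict U) = rs U T := by
    rw [LinearMap.range_domRestrict]; rfl
  have hk : Module.finrank ℂ (LinearMap.ker ((res T).toLinearMap.domRestrict U)) =
      Module.finrank ℂ ↥(U ⊓ LinearMap.ker (res T).toLinearMap) := by
    rw [LinearMap.ker_domRestrict]
    have := Submodule.finrank_map_subtype_eq U
      (Submodule.comap U.subtype (LinearMap.ker (res T).toLinearMap))
    rw [← this, Submodule.map_comap_subtype]
  rw [hr, hk] at h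
  unfold rk
  omega

lemma finrank_DD {j : ℕ} (U : Submodule ℂ (Pol (j + 1))) [Module.Finite ℂ U] :
    Module.finrank ℂ (DD U) + rk U (emb j (j + 1)) = Module.finrank ℂ U := by
  have h1 := finrank_ker_add U (emb j (j + 1))
  rw [← map_DD, finrank_map_mulLeft _ (X_ne_zero _)] at h1
  exact h1

lemma mem_EE {j : ℕ} {U : Submodule ℂ (Pol j)} {f : Pol j} : f ∈ EE U ↔ ∀ i, X i * f ∈ U :=
  Iff.rfl

lemma EE_le_DD {j : ℕ} (U : Submodule ℂ (Pol (j + 1))) : EE U ≤ DD U := fun _ hf => hf _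

lemma EE_finite {j : ℕ} (hj : 1 ≤ j) (U : Submodule ℂ (Pol j)) [Module.Finite ℂ U] :
    Module.Finite ℂ (EE U) := by
  obtain ⟨i, rfl⟩ : ∃ i, j = i + 1 := ⟨j - 1, by omega⟩
  exact Submodule.finiteDimensional_of_le (EE_le_DD U)

lemma finrank_EE_le {j : ℕ} (U : Submodule ℂ (Pol (j + 1))) [Module.Finite ℂ U] :
    Module.finrank ℂ (EE U) ≤ Module.finrank ℂ (DD U) :=
  Submodule.finrank_mono (EE_le_DD U)

lemma lf_mul_mem {j : ℕ} {U : Submodule ℂ (Pol j)} {f : Pol j} (hf : f ∈ EE U)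
    (w : Fin j → ℂ) : lf w * f ∈ U := by
  unfold lf
  rw [Finset.sum_mul]
  refine U.sum_mem fun k _ => ?_
  rw [mul_assoc, ← MvPolynomial.smul_eq_C_mul]
  exact U.smul_mem _ (hf k)

/-- the space `V_1 f` -/
noncomputable def VF {j : ℕ} (f : Pol j) : Submodule ℂ (Pol j) :=
  LinearMap.range ((LinearMap.mulRight ℂ f).comp (lfL j))

lemma mem_VF {j : ℕ} {f p : Pol j} : p ∈ VF f ↔ ∃ w : Fin j → ℂ, lf w * f = p := Iff.rfl

lemma finrank_VF {j : ℕ} {f : Pol j} (hf : f ≠ 0) : Module.finrank ℂ (VF f) = j := by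
  unfold VF
  rw [LinearMap.finrank_range_of_inj]
  · simp
  · intro a b h
    exact lf_injective (mul_right_cancel₀ hf h)

lemma finrank_VF_le {j : ℕ} (f : Pol j) : Module.finrank ℂ (VF f) ≤ j := by
  unfold VF
  refine (LinearMap.finrank_range_le _).trans ?_
  simp

instance VF_finite {j : ℕ} (f : Pol j) : Module.Finite ℂ (VF f) := by
  unfold VF; infer_instance

lemma rs_VF_le {j i : ℕ} (f : Pol j) (S : Matrix (Fin j) (Fin i) ℂ) :
    rs (VF f) S ≤ VF (res S f) := by
  rintro q ⟨p, ⟨w, rfl⟩, rfl⟩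
  refine ⟨Matrix.vecMul w S, ?_⟩
  show lf _ * res S f = res S (lf w * f)
  rw [map_mul, res_lf]

lemma rs_mono {n j : ℕ} {V W : Submodule ℂ (Pol n)} (h : V ≤ W) (T : Matrix (Fin n) (Fin j) ℂ) :
    rs V T ≤ rs W T := Submodule.map_mono h

end Pool.Agent.W2helper19.SOS
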